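import Mathlib

/-!
# Few generators of `m / m ^ 2` from independent linear relations
-/

namespace VF

variable {k A ι : Type*} [Field k] [CommRing A] [Algebra k A] [Fintype ι]

/-- `m` is generated by the `x i`; if `c` linearly independent linear combinations of the `x i` lie
in `m ^ 2` then `m` is generated modulo `m ^ 2` by `|ι| - c` elements. -/
theorem exists_generators {m : Ideal A} (x : ι → A) (hx : m = Ideal.span (Set.range x))
    {c n : ℕ} (hcard : Fintype.card ι ≤ c + n) (r : Fin c → ι → k) (hr : LinearIndependent k r)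
    (hrel : ∀ j, ∑ i, algebraMap k A (r j i) * x i ∈ m ^ 2) :
    ∃ y : Fin n → A, (∀ l, y l ∈ m) ∧ m ≤ Ideal.span (Set.range y) ⊔ m ^ 2 := by
  classical
  have hxm : ∀ i, x i ∈ m := fun i => by rw [hx]; exact Ideal.subset_span ⟨i, rfl⟩
  let ev : (ι → k) →ₗ[k] A :=
    { toFun := fun v => ∑ i, algebraMap k A (v i) * x i
      map_add' := fun v w => by
        simp only [Pi.add_apply, map_add, add_mul, Finset.sum_add_distrib]
      map_smul' := fun a v => by
        simp only [Pi.smul_apply, smul_eq_mul, map_mul, RingHom.id_apply, Algebra.smul_def,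
          Finset.mul_sum, mul_assoc] }
  have hevm : ∀ v, ev v ∈ m := fun v =>
    Ideal.sum_mem _ fun i _ => Ideal.mul_mem_left _ _ (hxm i)
  let ψ : (ι → k) →ₗ[k] (A ⧸ m ^ 2) := (Ideal.Quotient.mkₐ k (m ^ 2)).toLinearMap.comp ev
  have hψ : ∀ v, ψ v = Ideal.Quotient.mk (m ^ 2) (ev v) := fun v => rfl
  have hker : Submodule.span k (Set.range r) ≤ LinearMap.ker ψ := by
    rw [Submodule.span_le]
    rintro _ ⟨j, rfl⟩
    change ψ (r j) = 0
    rw [hψ, Ideal.Quotient.eq_zero_iff_mem]
    exact hrel j
  have hdim : Module.finrank k (LinearMap.range ψ) ≤ n := by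
    have h1 := LinearMap.finrank_range_add_finrank_ker ψ
    have h2 : c ≤ Module.finrank k (LinearMap.ker ψ) := by
      have h3 := Submodule.finrank_mono hker
      rw [finrank_span_eq_card hr, Fintype.card_fin] at h3
      exact h3
    rw [Module.finrank_fintype_fun_eq_card] at h1
    omega
  let b := Module.finBasis k (LinearMap.range ψ)
  have hb : ∀ l, ∃ v, ψ v = (b l : A ⧸ m ^ 2) := fun l => (b l).2
  choose v hv using hb
  let y : Fin n → A := fun l =>
    if h : l.val < Module.finrank k (LinearMap.range ψ) then ev (v ⟨l.val, h⟩) else 0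
  refine ⟨y, fun l => ?_, ?_⟩
  · by_cases h : l.val < Module.finrank k (LinearMap.range ψ)
    · simp only [y, dif_pos h]; exact hevm _
    · simp only [y, dif_neg h]; exact Ideal.zero_mem _
  · have key : ∀ i, x i ∈ Ideal.span (Set.range y) ⊔ m ^ 2 := by
      intro i
      have hxi : ev (Pi.single i 1) = x i := by
        change ∑ j, algebraMap k A ((Pi.single i (1 : k) : ι → k) j) * x j = x i
        rw [Finset.sum_eq_single i]
        · simp
        · intro j _ hj
          simp [Pi.single_eq_of_ne hj]
        · intro h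
          exact absurd (Finset.mem_univ i) h
      have hmem : Ideal.Quotient.mk (m ^ 2) (x i) ∈ LinearMap.range ψ := ⟨Pi.single i 1, by
        rw [hψ, hxi]⟩
      obtain ⟨d, hd⟩ : ∃ d : Fin (Module.finrank k (LinearMap.range ψ)) → k,
          Ideal.Quotient.mk (m ^ 2) (x i) =
            ∑ l, d l • ((b l : LinearMap.range ψ) : A ⧸ m ^ 2) := by
        have hrepr := b.sum_repr ⟨_, hmem⟩
        refine ⟨fun l => b.repr ⟨_, hmem⟩ l, ?_⟩
        have h3 := congrArg (Submodule.subtype (LinearMap.range ψ)) hrepr
        rw [map_sum] at h3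
        exact h3.symm
      have h5 : Ideal.Quotient.mk (m ^ 2) (x i - ∑ l,
          algebraMap k A (d l) * ev (v l)) = 0 := by
        rw [map_sub, map_sum, sub_eq_zero, hd]
        refine Finset.sum_congr rfl fun l _ => ?_
        rw [← hv l, hψ, map_mul, Algebra.smul_def]
        rfl
      rw [Ideal.Quotient.eq_zero_iff_mem] at h5
      have e : x i = ∑ l, algebraMap k A (d l) * ev (v l) +
          (x i - ∑ l, algebraMap k A (d l) * ev (v l)) := by ring
      rw [e]
      refine Ideal.add_mem _ (Ideal.mem_sup_left ?_) (Ideal.mem_sup_right h5)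
      refine Ideal.sum_mem _ fun l _ => Ideal.mul_mem_left _ _ ?_
      have hln : l.val < n := lt_of_lt_of_le l.2 hdim
      have : y ⟨l.val, hln⟩ = ev (v l) := by
        simp only [y, dif_pos l.2]
      rw [← this]
      exact Ideal.subset_span ⟨_, rfl⟩
    conv_lhs => rw [hx]
    rw [Ideal.span_le]
    rintro _ ⟨i, rfl⟩
    exact key i

end VF
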