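import Mathlib

/-!
# Injectivity of homomorphisms to power series rings

`A` is a Noetherian domain over a field `k`, `m` an ideal with residue field `k`, generated modulo
`m ^ 2` by elements `y i`; if `φ : A → k[[X_i]]` is local and its linear part is bijective, then
`φ` is injective.
-/

namespace VF

open MvPowerSeries

variable {k A σ : Type*} [Field k] [CommRing A] [Algebra k A]

theorem exists_linear {m : Ideal A} (hres : ∀ a : A, ∃ c : k, a - algebraMap k A c ∈ m)
    {y : σ → A} (hym : ∀ i, y i ∈ m) {s : A} (hs : s ∈ Ideal.span (Set.range y)) :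
    ∃ L : MvPolynomial σ k, L.IsHomogeneous 1 ∧ s - MvPolynomial.aeval y L ∈ m ^ 2 := by
  have hsub : Ideal.span (Set.range y) ≤ m := by
    rw [Ideal.span_le]
    rintro _ ⟨i, rfl⟩
    exact hym i
  induction hs using Submodule.span_induction with
  | mem x hx =>
    obtain ⟨i, rfl⟩ := hx
    exact ⟨MvPolynomial.X i, MvPolynomial.isHomogeneous_X _ _, by simp⟩
  | zero => exact ⟨0, MvPolynomial.isHomogeneous_zero _ _ _, by simp⟩
  | add a b ha hb iha ihb =>
    obtain ⟨L1, h1, h2⟩ := iha
    obtain ⟨L2, h3, h4⟩ := ihb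
    refine ⟨L1 + L2, h1.add h3, ?_⟩
    rw [map_add]
    have := Ideal.add_mem _ h2 h4
    convert this using 1
    ring
  | smul a x hx ih =>
    obtain ⟨L, h1, h2⟩ := ih
    obtain ⟨c, hc⟩ := hres a
    refine ⟨MvPolynomial.C c * L, ?_, ?_⟩
    · simpa using (MvPolynomial.isHomogeneous_C σ c).mul h1
    · rw [map_mul, MvPolynomial.aeval_C, smul_eq_mul]
      have e : a * x - algebraMap k A c * MvPolynomial.aeval y L =
          (a - algebraMap k A c) * x + algebraMap k A c * (x - MvPolynomial.aeval y L) := by ring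
      rw [e]
      refine Ideal.add_mem _ ?_ (Ideal.mul_mem_left _ _ h2)
      rw [pow_two]
      exact Ideal.mul_mem_mul hc (hsub hx)

theorem exists_homogeneous {m : Ideal A} (hres : ∀ a : A, ∃ c : k, a - algebraMap k A c ∈ m)
    {y : σ → A} (hym : ∀ i, y i ∈ m) (hgen : m ≤ Ideal.span (Set.range y) ⊔ m ^ 2) :
    ∀ (d : ℕ) (f : A), f ∈ m ^ d →
      ∃ P : MvPolynomial σ k, P.IsHomogeneous d ∧ f - MvPolynomial.aeval y P ∈ m ^ (d + 1) := by
  intro d
  induction d with
  | zero =>
    intro f _
    obtain ⟨c, hc⟩ := hres f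
    exact ⟨MvPolynomial.C c, MvPolynomial.isHomogeneous_C _ _, by simpa using hc⟩
  | succ d ih =>
    intro f hf
    rw [pow_succ] at hf
    induction hf using Submodule.mul_induction_on' with
    | mem_mul_mem g hg h hh =>
      obtain ⟨P, hP1, hP2⟩ := ih g hg
      obtain ⟨s, hs, t, ht, rfl⟩ := Submodule.mem_sup.1 (hgen hh)
      obtain ⟨L, hL1, hL2⟩ := exists_linear (k := k) hres hym hs
      refine ⟨P * L, hP1.mul hL1, ?_⟩
      rw [map_mul]
      have hPm : MvPolynomial.aeval y P ∈ m ^ d := by
        have h1 : g - MvPolynomial.aeval y P ∈ m ^ d := Ideal.pow_le_pow_right (Nat.le_succ d) hP2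
        have := Ideal.sub_mem _ hg h1
        simpa using this
      have hL3 : s + t - MvPolynomial.aeval y L ∈ m ^ 2 := by
        have := Ideal.add_mem _ hL2 ht
        convert this using 1
        ring
      have e : g * (s + t) - MvPolynomial.aeval y P * MvPolynomial.aeval y L =
          (g - MvPolynomial.aeval y P) * (s + t) +
            MvPolynomial.aeval y P * (s + t - MvPolynomial.aeval y L) := by ring
      rw [e]
      refine Ideal.add_mem _ ?_ ?_
      · rw [pow_succ]
        exact Ideal.mul_mem_mul hP2 hh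
      · have e2 : d + 1 + 1 = d + 2 := rfl
        rw [e2, pow_add]
        exact Ideal.mul_mem_mul hPm hL3
    | add a ha b hb iha ihb =>
      obtain ⟨P1, h1, h2⟩ := iha
      obtain ⟨P2, h3, h4⟩ := ihb
      refine ⟨P1 + P2, h1.add h3, ?_⟩
      rw [map_add]
      have := Ideal.add_mem _ h2 h4
      convert this using 1
      ring

theorem order_of_mem_pow {φ : A →ₐ[k] MvPowerSeries σ k} {m : Ideal A}
    (hm : ∀ a ∈ m, constantCoeff (φ a) = 0) :
    ∀ (d : ℕ) (f : A), f ∈ m ^ d → (d : ℕ∞) ≤ (φ f).order := by
  intro d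
  induction d with
  | zero => intro f _; simp
  | succ d ih =>
    intro f hf
    rw [pow_succ] at hf
    induction hf using Submodule.mul_induction_on' with
    | mem_mul_mem g hg h hh =>
      rw [map_mul]
      refine le_trans ?_ le_order_mul
      have h1 : (1 : ℕ∞) ≤ (φ h).order := (one_le_order_iff_constCoeff_eq_zero).2 (hm h hh)
      push_cast
      exact add_le_add (ih g hg) h1
    | add a ha b hb iha ihb =>
      rw [map_add]
      exact le_trans (le_min iha ihb) min_order_le_add

theorem hom_zero {φ : A →ₐ[k] MvPowerSeries σ k} {y : σ → A} :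
    ((Finsupp.degree (0 : σ →₀ ℕ) : ℕ) : ℕ∞) ≤
      (φ (MvPolynomial.aeval y (MvPolynomial.monomial (0 : σ →₀ ℕ) (1 : k)))).order ∧
    homogeneousComponent (Finsupp.degree (0 : σ →₀ ℕ))
      (φ (MvPolynomial.aeval y (MvPolynomial.monomial (0 : σ →₀ ℕ) (1 : k)))) =
      monomial (0 : σ →₀ ℕ) (1 : k) := by
  refine ⟨by simp, ?_⟩
  rw [MvPolynomial.monomial_zero', map_one, map_one, map_one]
  ext d
  rw [coeff_homogeneousComponent]
  classical
  rw [coeff_one, coeff_monomial]
  by_cases h : d = 0
  · subst h; simp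
  · simp [h]

theorem hom_monomial {φ : A →ₐ[k] MvPowerSeries σ k} {y : σ → A}
    (hy : ∀ i, (2 : ℕ∞) ≤ (φ (y i) - X i).order) (n : σ →₀ ℕ) :
    ((Finsupp.degree n : ℕ) : ℕ∞) ≤ (φ (MvPolynomial.aeval y (MvPolynomial.monomial n (1 : k)))).order ∧
    homogeneousComponent (Finsupp.degree n)
      (φ (MvPolynomial.aeval y (MvPolynomial.monomial n (1 : k)))) = monomial n (1 : k) := by
  induction n using Finsupp.induction_linear with
  | zero => exact hom_zero
  | add f g hf hg =>
    have e : MvPolynomial.monomial (f + g) (1 : k) =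
        MvPolynomial.monomial f (1 : k) * MvPolynomial.monomial g (1 : k) := by
      rw [MvPolynomial.monomial_mul, one_mul]
    rw [e, map_mul, map_mul, map_add]
    constructor
    · refine le_trans ?_ le_order_mul
      push_cast
      exact add_le_add hf.1 hg.1
    · rw [homogeneousComponent_mul_of_le_order hf.1 hg.1, hf.2, hg.2, monomial_mul_monomial, one_mul]
  | single i e =>
    have h1 : (1 : ℕ∞) ≤ (φ (y i)).order := by
      have : φ (y i) = (φ (y i) - X i) + X i := by ring
      rw [this]
      refine le_trans (le_min ?_ ?_) min_order_le_add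
      · exact le_trans (by norm_num) (hy i)
      · exact (one_le_order_iff_constCoeff_eq_zero).2 (by simp)
    have h2 : homogeneousComponent 1 (φ (y i)) = X i := by
      have : φ (y i) = (φ (y i) - X i) + X i := by ring
      rw [this, map_add, homogeneousComponent_of_lt_order_eq_zero, zero_add]
      · ext d
        rw [coeff_homogeneousComponent]
        classical
        rw [coeff_X]
        by_cases h : d = Finsupp.single i 1
        · subst h; simp
        · simp [h]
      · exact lt_of_lt_of_le (by norm_num) (hy i)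
    induction e with
    | zero =>
      rw [Finsupp.single_zero]
      exact hom_zero
    | succ e ih =>
      have e1 : MvPolynomial.monomial (Finsupp.single i (e + 1)) (1 : k) =
          MvPolynomial.monomial (Finsupp.single i e) (1 : k) * MvPolynomial.X i := by
        rw [MvPolynomial.X, MvPolynomial.monomial_mul, one_mul, ← Finsupp.single_add]
      rw [e1, map_mul, map_mul, MvPolynomial.aeval_X]
      have e2 : Finsupp.degree (Finsupp.single i (e + 1)) =
          Finsupp.degree (Finsupp.single i e) + 1 := by simp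
      rw [e2]
      constructor
      · refine le_trans ?_ le_order_mul
        push_cast
        exact add_le_add ih.1 h1
      · rw [homogeneousComponent_mul_of_le_order ih.1 (by simpa using h1), ih.2, h2, X,
          monomial_mul_monomial, one_mul, ← Finsupp.single_add]

theorem hom_homogeneous {φ : A →ₐ[k] MvPowerSeries σ k} {y : σ → A}
    (hy : ∀ i, (2 : ℕ∞) ≤ (φ (y i) - X i).order) {d : ℕ} {P : MvPolynomial σ k}
    (hP : P.IsHomogeneous d) :
    homogeneousComponent d (φ (MvPolynomial.aeval y P)) = (P : MvPowerSeries σ k) := by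
  classical
  have e1 : P = ∑ n ∈ P.support, MvPolynomial.C (P.coeff n) * MvPolynomial.monomial n (1 : k) := by
    conv_lhs => rw [P.as_sum]
    refine Finset.sum_congr rfl fun n _ => ?_
    rw [MvPolynomial.C_mul_monomial, mul_one]
  conv_lhs => rw [e1]
  conv_rhs => rw [e1]
  rw [map_sum, map_sum, map_sum]
  have e2 : ((∑ n ∈ P.support, MvPolynomial.C (P.coeff n) * MvPolynomial.monomial n (1 : k) :
      MvPolynomial σ k) : MvPowerSeries σ k) =
      ∑ n ∈ P.support, ((MvPolynomial.C (P.coeff n) * MvPolynomial.monomial n (1 : k) :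
        MvPolynomial σ k) : MvPowerSeries σ k) :=
    map_sum (MvPolynomial.coeToMvPowerSeries.ringHom (R := k) (σ := σ)) _ _
  rw [e2]
  refine Finset.sum_congr rfl fun n hn => ?_
  have hd : Finsupp.degree n = d := by
    have := hP (MvPolynomial.mem_support_iff.1 hn)
    rw [← this, Finsupp.degree_eq_weight_one]
    rfl
  have h := (hom_monomial (φ := φ) hy n).2
  rw [hd] at h
  rw [map_mul, MvPolynomial.aeval_C, map_mul, AlgHom.commutes, ← Algebra.smul_def, map_smul, h,
    MvPolynomial.coe_mul, MvPolynomial.coe_C, MvPolynomial.coe_monomial, ← smul_eq_C_mul]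

/-- **INJ**, normalised form -/
theorem inj_normalized [IsDomain A] [IsNoetherianRing A] {φ : A →ₐ[k] MvPowerSeries σ k}
    {m : Ideal A} (hres : ∀ a : A, ∃ c : k, a - algebraMap k A c ∈ m)
    (hm : ∀ a ∈ m, constantCoeff (φ a) = 0) {y : σ → A} (hym : ∀ i, y i ∈ m)
    (hy : ∀ i, (2 : ℕ∞) ≤ (φ (y i) - X i).order)
    (hgen : m ≤ Ideal.span (Set.range y) ⊔ m ^ 2) : Function.Injective φ := by
  have hmtop : m ≠ ⊤ := by
    intro h
    have := hm 1 (h ▸ Submodule.mem_top)
    rw [map_one, map_one] at this
    exact one_ne_zero this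
  have hkrull := Ideal.iInf_pow_eq_bot_of_isDomain m hmtop
  rw [injective_iff_map_eq_zero]
  intro f hf
  by_contra hne
  have hex : ∃ n : ℕ, f ∉ m ^ n := by
    by_contra hcon
    push Not at hcon
    have : f ∈ ⨅ i, m ^ i := by
      rw [Submodule.mem_iInf]
      exact hcon
    rw [hkrull] at this
    exact hne this
  classical
  have hmin := Nat.find_spec hex
  have hpos : Nat.find hex ≠ 0 := by
    intro h0
    rw [h0, pow_zero, Ideal.one_eq_top] at hmin
    exact hmin Submodule.mem_top
  obtain ⟨d, hd⟩ := Nat.exists_eq_succ_of_ne_zero hpos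
  have hfd : f ∈ m ^ d := by
    by_contra hcon
    have := Nat.find_min' hex hcon
    omega
  rw [hd] at hmin
  obtain ⟨P, hP1, hP2⟩ := exists_homogeneous (k := k) hres hym hgen d f hfd
  have h1 := hom_homogeneous hy hP1
  have h2 : (d : ℕ∞) < (φ (MvPolynomial.aeval y P)).order := by
    have h3 := order_of_mem_pow hm (d + 1) _ hP2
    rw [map_sub, hf, zero_sub, order_neg] at h3
    exact lt_of_lt_of_le (by exact_mod_cast Nat.lt_succ_self d) h3
  rw [homogeneousComponent_of_lt_order_eq_zero h2] at h1
  have hP0 : P = 0 := by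
    have : (P : MvPowerSeries σ k) = ((0 : MvPolynomial σ k) : MvPowerSeries σ k) := by
      rw [← h1, MvPolynomial.coe_zero]
    exact MvPolynomial.coe_injective σ k this
  rw [hP0, map_zero, sub_zero] at hP2
  exact hmin hP2

theorem exists_coeffs [Fintype σ] [DecidableEq σ] {m : Ideal A}
    (hres : ∀ a : A, ∃ c : k, a - algebraMap k A c ∈ m)
    {y : σ → A} (hym : ∀ i, y i ∈ m) {s : A} (hs : s ∈ Ideal.span (Set.range y)) :
    ∃ c : σ → k, s - ∑ j, algebraMap k A (c j) * y j ∈ m ^ 2 := by
  have hsub : Ideal.span (Set.range y) ≤ m := by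
    rw [Ideal.span_le]
    rintro _ ⟨i, rfl⟩
    exact hym i
  induction hs using Submodule.span_induction with
  | mem x hx =>
    obtain ⟨i, rfl⟩ := hx
    refine ⟨Pi.single i 1, ?_⟩
    have : ∑ j, algebraMap k A ((Pi.single i (1 : k) : σ → k) j) * y j = y i := by
      rw [Finset.sum_eq_single i]
      · simp
      · intro j _ hj
        simp [Pi.single_eq_of_ne hj]
      · intro h
        exact absurd (Finset.mem_univ i) h
    rw [this, sub_self]
    exact Ideal.zero_mem _
  | zero => exact ⟨0, by simp⟩
  | add a b ha hb iha ihb =>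
    obtain ⟨c1, h1⟩ := iha
    obtain ⟨c2, h2⟩ := ihb
    refine ⟨c1 + c2, ?_⟩
    have := Ideal.add_mem _ h1 h2
    have e : a + b - ∑ j, algebraMap k A ((c1 + c2) j) * y j =
        (a - ∑ j, algebraMap k A (c1 j) * y j) + (b - ∑ j, algebraMap k A (c2 j) * y j) := by
      simp only [Pi.add_apply, map_add, add_mul, Finset.sum_add_distrib]
      ring
    rw [e]
    exact this
  | smul a x hx ih =>
    obtain ⟨c, h2⟩ := ih
    obtain ⟨c0, hc⟩ := hres a
    refine ⟨fun j => c0 * c j, ?_⟩
    have e : a • x - ∑ j, algebraMap k A (c0 * c j) * y j =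
        (a - algebraMap k A c0) * x +
          algebraMap k A c0 * (x - ∑ j, algebraMap k A (c j) * y j) := by
      simp only [map_mul, mul_assoc, ← Finset.mul_sum, smul_eq_mul]
      ring
    rw [e]
    refine Ideal.add_mem _ ?_ (Ideal.mul_mem_left _ _ h2)
    rw [pow_two]
    exact Ideal.mul_mem_mul hc (hsub hx)

/-- **INJ**: `A` is a Noetherian domain over the field `k`, `m` an ideal with residue field `k`
generated modulo `m ^ 2` by as many elements as there are variables, `φ : A → k[[X]]` is local and
hits all the variables modulo terms of order two; then `φ` is injective. -/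
theorem krull_inj [Fintype σ] [IsDomain A] [IsNoetherianRing A]
    {φ : A →ₐ[k] MvPowerSeries σ k}
    {m : Ideal A} (hres : ∀ a : A, ∃ c : k, a - algebraMap k A c ∈ m)
    (hm : ∀ a ∈ m, constantCoeff (φ a) = 0) {y : σ → A} (hym : ∀ i, y i ∈ m)
    (hgen : m ≤ Ideal.span (Set.range y) ⊔ m ^ 2)
    (hsurj : ∀ i, ∃ x ∈ m, (2 : ℕ∞) ≤ (φ x - X i).order) : Function.Injective φ := by
  classical
  choose x hxm hx using hsurj
  have h1 : ∀ i, ∃ c : σ → k, x i - ∑ j, algebraMap k A (c j) * y j ∈ m ^ 2 := by
    intro i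
    obtain ⟨s, hs, t, ht, hst⟩ := Submodule.mem_sup.1 (hgen (hxm i))
    obtain ⟨c, hc⟩ := exists_coeffs (k := k) hres hym hs
    refine ⟨c, ?_⟩
    rw [← hst]
    have := Ideal.add_mem _ hc ht
    have e : s + t - ∑ j, algebraMap k A (c j) * y j =
        (s - ∑ j, algebraMap k A (c j) * y j) + t := by ring
    rw [e]
    exact this
  choose c hc using h1
  let M : Matrix σ σ k := fun j l => coeff (Finsupp.single l 1) (φ (y j))
  have hcM : (Matrix.of c) * M = 1 := by
    ext i l
    rw [Matrix.mul_apply]
    have h2 : coeff (Finsupp.single l 1) (φ (x i - ∑ j, algebraMap k A (c i j) * y j)) = 0 := by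
      apply coeff_of_lt_order
      refine lt_of_lt_of_le ?_ (order_of_mem_pow hm 2 _ (hc i))
      simp
    have h3 : coeff (Finsupp.single l 1) (φ (x i) - X i) = 0 := by
      apply coeff_of_lt_order
      refine lt_of_lt_of_le ?_ (hx i)
      simp
    rw [map_sub, map_sum, map_sub, map_sum, sub_eq_zero] at h2
    rw [map_sub, sub_eq_zero] at h3
    rw [h3, coeff_X] at h2
    have h4 : ∀ j, coeff (Finsupp.single l 1) (φ (algebraMap k A (c i j) * y j)) =
        Matrix.of c i j * M j l := by
      intro j
      rw [map_mul, AlgHom.commutes, ← Algebra.smul_def, map_smul, smul_eq_mul]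
      rfl
    rw [Finset.sum_congr rfl (fun j _ => h4 j)] at h2
    rw [← h2, Matrix.one_apply]
    by_cases h : i = l
    · subst h; simp
    · rw [if_neg h, if_neg]
      intro h5
      have := Finsupp.single_left_injective (one_ne_zero) h5
      exact h this.symm
  have hMc : M * (Matrix.of c) = 1 := mul_eq_one_comm.1 hcM
  refine inj_normalized hres hm hxm hx ?_
  have hyx : ∀ j, y j ∈ Ideal.span (Set.range x) ⊔ m ^ 2 := by
    intro j
    have e : y j = ∑ i, algebraMap k A (M j i) * x i -
        ∑ i, algebraMap k A (M j i) * (x i - ∑ l, algebraMap k A (c i l) * y l) := by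
      rw [← Finset.sum_sub_distrib]
      have e1 : ∀ i, algebraMap k A (M j i) * x i -
          algebraMap k A (M j i) * (x i - ∑ l, algebraMap k A (c i l) * y l) =
          ∑ l, algebraMap k A (M j i * c i l) * y l := by
        intro i
        rw [mul_sub, sub_sub_cancel, Finset.mul_sum]
        refine Finset.sum_congr rfl fun l _ => ?_
        rw [map_mul, mul_assoc]
      rw [Finset.sum_congr rfl (fun i _ => e1 i), Finset.sum_comm]
      have e2 : ∀ l, ∑ i, algebraMap k A (M j i * c i l) * y l =
          algebraMap k A ((M * Matrix.of c) j l) * y l := by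
        intro l
        rw [Matrix.mul_apply, map_sum, Finset.sum_mul]
        rfl
      rw [Finset.sum_congr rfl (fun l _ => e2 l), hMc, Finset.sum_eq_single j]
      · simp
      · intro l _ hl
        simp [Matrix.one_apply_ne (Ne.symm hl)]
      · intro h
        exact absurd (Finset.mem_univ j) h
    rw [e]
    refine Ideal.sub_mem _ ?_ ?_
    · refine Ideal.sum_mem _ fun i _ => ?_
      exact Ideal.mul_mem_left _ _ (Ideal.mem_sup_left (Ideal.subset_span ⟨i, rfl⟩))
    · refine Ideal.sum_mem _ fun i _ => ?_
      exact Ideal.mul_mem_left _ _ (Ideal.mem_sup_right (hc i))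
  refine hgen.trans (sup_le ?_ le_sup_right)
  rw [Ideal.span_le]
  rintro _ ⟨j, rfl⟩
  exact hyx j

end VF
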