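import Mathlib

/-!
# Branches over the field of Laurent series

Every separable polynomial of positive degree over `k((t))`, `k` algebraically closed, has a root in
`k((τ))` after an embedding `k((t)) → k((τ))` over `k` which maps `k[[t]]` into `k[[τ]]` and respects
the values at `0`.
-/

set_option autoImplicit false

namespace Pool.Agent.VF

open PowerSeries

section Expand

variable {k R : Type*} [Field k] [CommRing R] [IsDomain R] [IsDiscreteValuationRing R]

/-- the power series `f` is the expansion of `x` in powers of `ϖ` -/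
def IsExpansion (ι : k →+* R) (ϖ : R) (x : R) (f : PowerSeries k) : Prop :=
  ∀ n : ℕ, ∃ r : R, x = (trunc n f).eval₂ ι ϖ + ϖ ^ n * r

omit [IsDomain R] [IsDiscreteValuationRing R] in
theorem IsExpansion.add {ι : k →+* R} {ϖ x y : R} {f g : PowerSeries k}
    (hx : IsExpansion ι ϖ x f) (hy : IsExpansion ι ϖ y g) : IsExpansion ι ϖ (x + y) (f + g) := by
  intro n
  obtain ⟨r, hr⟩ := hx n
  obtain ⟨s, hs⟩ := hy n
  refine ⟨r + s, ?_⟩
  rw [hr, hs, map_add, Polynomial.eval₂_add]
  ring

omit [IsDomain R] [IsDiscreteValuationRing R] in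
theorem IsExpansion.mul {ι : k →+* R} {ϖ x y : R} {f g : PowerSeries k}
    (hx : IsExpansion ι ϖ x f) (hy : IsExpansion ι ϖ y g) : IsExpansion ι ϖ (x * y) (f * g) := by
  intro n
  obtain ⟨r, hr⟩ := hx n
  obtain ⟨s, hs⟩ := hy n
  have hdvd : Polynomial.X ^ n ∣ trunc n f * trunc n g - trunc n (f * g) := by
    rw [Polynomial.X_pow_dvd_iff]
    intro d hd
    rw [Polynomial.coeff_sub, sub_eq_zero]
    have h1 := congrArg (fun p => Polynomial.coeff p d) (trunc_trunc_mul_trunc (n := n) f g)
    rw [← h1, coeff_trunc, if_pos hd, ← Polynomial.coe_mul, Polynomial.coeff_coe]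
  obtain ⟨q, hq⟩ := hdvd
  have h2 := congrArg (Polynomial.eval₂ ι ϖ) hq
  rw [Polynomial.eval₂_sub, Polynomial.eval₂_mul, Polynomial.eval₂_mul, Polynomial.eval₂_X_pow] at h2
  refine ⟨(trunc n f).eval₂ ι ϖ * s + (trunc n g).eval₂ ι ϖ * r + ϖ ^ n * r * s + q.eval₂ ι ϖ, ?_⟩
  rw [hr, hs]
  linear_combination h2

omit [IsDomain R] [IsDiscreteValuationRing R] in
theorem isExpansion_C (ι : k →+* R) (ϖ : R) (a : k) : IsExpansion ι ϖ (ι a) (C a) := by
  intro n
  cases n with
  | zero => exact ⟨ι a, by simp⟩
  | succ n =>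
    refine ⟨0, ?_⟩
    rw [trunc_C, Polynomial.eval₂_C, mul_zero, add_zero]

omit [IsDiscreteValuationRing R] in
theorem isExpansion_zero_unique {ι : k →+* R} {ϖ : R} (hϖ : Irreducible ϖ) {f : PowerSeries k}
    (h : IsExpansion ι ϖ 0 f) : f = 0 := by
  by_contra hf
  obtain ⟨d, hd, hmin⟩ : ∃ d, coeff d f ≠ 0 ∧ ∀ i < d, coeff i f = 0 := by
    have hex : ∃ d, coeff d f ≠ 0 := by
      by_contra hcon
      push Not at hcon
      exact hf (PowerSeries.ext fun n => by rw [hcon n, map_zero])
    classical
    exact ⟨Nat.find hex, Nat.find_spec hex, fun i hi => not_not.mp (Nat.find_min hex hi)⟩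
  obtain ⟨r, hr⟩ := h (d + 1)
  have ht : trunc (d + 1) f = Polynomial.monomial d (coeff d f) := by
    ext i
    rw [coeff_trunc, Polynomial.coeff_monomial]
    by_cases h1 : d = i
    · subst h1
      simp
    · rw [if_neg h1]
      split_ifs with h2
      · exact hmin i (by omega)
      · rfl
  rw [ht, Polynomial.eval₂_monomial] at hr
  have h3 : ϖ ^ d * (ι (coeff d f) + ϖ * r) = 0 := by
    rw [hr]
    ring
  have h4 : ι (coeff d f) + ϖ * r = 0 := by
    rcases mul_eq_zero.mp h3 with h5 | h5
    · exact absurd h5 (pow_ne_zero _ hϖ.ne_zero)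
    · exact h5
  have h6 : IsUnit (ι (coeff d f)) := (isUnit_iff_ne_zero.mpr hd).map ι
  apply hϖ.not_isUnit
  refine isUnit_of_dvd_unit ⟨-r, ?_⟩ h6
  linear_combination h4

omit [IsDiscreteValuationRing R] in
theorem IsExpansion.unique {ι : k →+* R} {ϖ x : R} (hϖ : Irreducible ϖ) {f g : PowerSeries k}
    (hf : IsExpansion ι ϖ x f) (hg : IsExpansion ι ϖ x g) : f = g := by
  have h1 := hf.add (hg.mul (isExpansion_C ι ϖ (-1)))
  have h2 : x + x * ι (-1) = 0 := by rw [map_neg, map_one]; ring
  rw [h2] at h1
  have h3 := isExpansion_zero_unique hϖ h1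
  rw [map_neg, map_one] at h3
  linear_combination h3

/-- the remainders of the expansion -/
private noncomputable def rem (ι : k →+* R) (ϖ : R)
    (hres : ∀ x : R, ∃ a : k, ∃ r : R, x = ι a + ϖ * r) (x : R) : ℕ → R
  | 0 => x
  | n + 1 => (hres (rem ι ϖ hres x n)).choose_spec.choose

omit [IsDomain R] [IsDiscreteValuationRing R] in
theorem exists_isExpansion {ι : k →+* R} {ϖ : R}
    (hres : ∀ x : R, ∃ a : k, ∃ r : R, x = ι a + ϖ * r) (x : R) :
    ∃ f : PowerSeries k, IsExpansion ι ϖ x f := by
  refine ⟨PowerSeries.mk fun n => (hres (rem ι ϖ hres x n)).choose, fun n => ?_⟩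
  refine ⟨rem ι ϖ hres x n, ?_⟩
  induction n with
  | zero => simp [rem]
  | succ n ih =>
    have h1 := (hres (rem ι ϖ hres x n)).choose_spec.choose_spec
    rw [trunc_succ, Polynomial.eval₂_add, Polynomial.eval₂_monomial, coeff_mk]
    change x = _ + _ + ϖ ^ (n + 1) * (hres (rem ι ϖ hres x n)).choose_spec.choose
    conv_lhs => rw [ih, h1]
    ring

/-- **Expansion in a discrete valuation ring.** -/
theorem dvr_expand (ι : k →+* R) (hres : ∀ x : R, ∃ a : k, x - ι a ∈ IsLocalRing.maximalIdeal R) :
    ∃ E : R →+* PowerSeries k, Function.Injective E ∧ (∀ a, E (ι a) = C a) ∧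
      ∀ x, x - ι (constantCoeff (E x)) ∈ IsLocalRing.maximalIdeal R := by
  obtain ⟨ϖ, hϖ⟩ := IsDiscreteValuationRing.exists_irreducible R
  have hmax := (IsDiscreteValuationRing.irreducible_iff_uniformizer ϖ).mp hϖ
  have hres' : ∀ x : R, ∃ a : k, ∃ r : R, x = ι a + ϖ * r := by
    intro x
    obtain ⟨a, ha⟩ := hres x
    rw [hmax, Ideal.mem_span_singleton] at ha
    obtain ⟨r, hr⟩ := ha
    exact ⟨a, r, by linear_combination hr⟩
  choose E hE using fun x => exists_isExpansion (ι := ι) (ϖ := ϖ) hres' x
  have h1 : E 1 = 1 := (hE 1).unique hϖ (by simpa using isExpansion_C ι ϖ 1)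
  have h0 : E 0 = 0 := (hE 0).unique hϖ (by simpa using isExpansion_C ι ϖ 0)
  refine ⟨{ toFun := E, map_one' := h1, map_zero' := h0,
            map_mul' := fun x y => (hE _).unique hϖ ((hE x).mul (hE y)),
            map_add' := fun x y => (hE _).unique hϖ ((hE x).add (hE y)) }, ?_, ?_, ?_⟩
  · rw [injective_iff_map_eq_zero]
    intro x hx
    by_contra hne
    obtain ⟨m, u, hu⟩ := IsDiscreteValuationRing.eq_unit_mul_pow_irreducible hne hϖ
    obtain ⟨r, hr⟩ := hE x (m + 1)
    change E x = 0 at hx
    rw [hx, map_zero, Polynomial.eval₂_zero, zero_add, hu] at hr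
    have h2 : ϖ ^ m * ((u : R) - ϖ * r) = 0 := by linear_combination hr
    rcases mul_eq_zero.mp h2 with h3 | h3
    · exact pow_ne_zero _ hϖ.ne_zero h3
    · exact hϖ.not_isUnit (isUnit_of_dvd_unit ⟨r, by linear_combination h3⟩ u.isUnit)
  · exact fun a => (hE _).unique hϖ (isExpansion_C ι ϖ a)
  · intro x
    change x - ι (constantCoeff (E x)) ∈ _
    obtain ⟨r, hr⟩ := hE x 1
    rw [hmax, Ideal.mem_span_singleton]
    refine ⟨r, ?_⟩
    have h2 : trunc 1 (E x) = Polynomial.C (constantCoeff (E x)) := by
      ext i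
      rw [coeff_trunc, Polynomial.coeff_C]
      by_cases hi : i = 0
      · subst hi
        simp
      · rw [if_neg (by omega), if_neg hi]
    rw [h2, Polynomial.eval₂_C, pow_one] at hr
    linear_combination hr

end Expand

section Branch

variable {k : Type} [Field k] [IsAlgClosed k]

/-- residues: `B` integral over `k[[t]]`, `M` a maximal ideal over `(t)` -/
theorem exists_residue {B : Type} [CommRing B] [Algebra (PowerSeries k) B]
    [Algebra.IsIntegral (PowerSeries k) B] (M : Ideal B) [M.IsPrime]
    (hM : (X : PowerSeries k) ∈ Ideal.comap (algebraMap (PowerSeries k) B) M) (x : B) :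
    ∃ a : k, x - algebraMap (PowerSeries k) B (C a) ∈ M := by
  set f : k →+* B ⧸ M := ((Ideal.Quotient.mk M).comp (algebraMap (PowerSeries k) B)).comp C with hf
  have hfc : f.comp constantCoeff = (Ideal.Quotient.mk M).comp (algebraMap (PowerSeries k) B) := by
    ext a
    rw [hf]
    simp only [RingHom.comp_apply]
    rw [Ideal.Quotient.mk_eq_mk_iff_sub_mem, ← map_sub]
    have h1 : (X : PowerSeries k) ∣ C (constantCoeff a) - a := by
      rw [X_dvd_iff, map_sub, constantCoeff_C, sub_self]
    obtain ⟨b, hb⟩ := h1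
    rw [hb, map_mul]
    exact Ideal.mul_mem_right _ _ hM
  have hint : f.IsIntegral := by
    intro y
    obtain ⟨x, rfl⟩ := Ideal.Quotient.mk_surjective y
    obtain ⟨p, hp, hpx⟩ := Algebra.IsIntegral.isIntegral (R := PowerSeries k) x
    refine ⟨p.map constantCoeff, hp.map _, ?_⟩
    rw [Polynomial.eval₂_map, hfc, ← Polynomial.hom_eval₂, hpx, map_zero]
  obtain ⟨a, ha⟩ := (IsAlgClosed.ringHom_bijective_of_isIntegral f hint).2 (Ideal.Quotient.mk M x)
  refine ⟨a, ?_⟩
  rw [← Ideal.Quotient.mk_eq_mk_iff_sub_mem, ← ha]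
  rfl

theorem expand_localization {B : Type} [CommRing B] [IsDomain B] [IsDedekindDomain B]
    [Algebra (PowerSeries k) B] [Algebra.IsIntegral (PowerSeries k) B] (M : Ideal B) [M.IsPrime]
    (hM0 : M ≠ ⊥) (hXM : (X : PowerSeries k) ∈ Ideal.comap (algebraMap (PowerSeries k) B) M)
    (R : Type) [CommRing R] [IsDomain R] [Algebra B R] [IsLocalization.AtPrime R M] :
    ∃ E : B →+* PowerSeries k, Function.Injective E ∧
      (∀ a, E (algebraMap (PowerSeries k) B (C a)) = C a) ∧
      ∀ x : B, x - algebraMap (PowerSeries k) B (C (constantCoeff (E x))) ∈ M := by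
  have _ : IsDiscreteValuationRing R :=
    IsLocalization.AtPrime.isDiscreteValuationRing_of_dedekind_domain B hM0 R
  set ι : k →+* R := ((algebraMap B R).comp (algebraMap (PowerSeries k) B)).comp C with hι
  have hmem : ∀ x : B, algebraMap B R x ∈ IsLocalRing.maximalIdeal R ↔ x ∈ M := fun x =>
    IsLocalization.AtPrime.to_map_mem_maximal_iff R M x
  have hres : ∀ x : R, ∃ a : k, x - ι a ∈ IsLocalRing.maximalIdeal R := by
    intro x
    obtain ⟨⟨b, s⟩, hbs⟩ := IsLocalization.surj M.primeCompl x
    obtain ⟨a, ha⟩ := exists_residue M hXM b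
    obtain ⟨c, hc⟩ := exists_residue M hXM (s : B)
    have hc0 : c ≠ 0 := by
      rintro rfl
      rw [map_zero, map_zero, sub_zero] at hc
      exact s.2 hc
    refine ⟨a / c, ?_⟩
    have hs : IsUnit (algebraMap B R s) := IsLocalization.map_units R s
    have h1 : algebraMap B R s * (x - ι (a / c)) =
        algebraMap B R ((b - algebraMap (PowerSeries k) B (C a)) -
            algebraMap (PowerSeries k) B (C (a / c)) *
              ((s : B) - algebraMap (PowerSeries k) B (C c))) := by
      have h2 : algebraMap (PowerSeries k) B (C a) =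
          algebraMap (PowerSeries k) B (C (a / c)) * algebraMap (PowerSeries k) B (C c) := by
        rw [← map_mul, ← map_mul, div_mul_cancel₀ _ hc0]
      rw [h2, hι]
      simp only [RingHom.comp_apply, map_sub, map_mul]
      dsimp only at hbs
      linear_combination hbs
    rw [← Ideal.unit_mul_mem_iff_mem _ hs, h1, hmem]
    exact Ideal.sub_mem _ ha (Ideal.mul_mem_left _ _ hc)
  obtain ⟨E, hE1, hE2, hE3⟩ := dvr_expand ι hres
  have hinjM : Function.Injective (algebraMap B R) :=
    IsLocalization.injective _ M.primeCompl_le_nonZeroDivisors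
  refine ⟨E.comp (algebraMap B R), hE1.comp hinjM, hE2, fun x => ?_⟩
  rw [← hmem, map_sub]
  exact hE3 (algebraMap B R x)

/-- **Branches.** A finite separable extension of `k((t))` embeds into `k((τ))` over `k` such that
`k[[t]]` goes into `k[[τ]]` and the values at `0` are respected. -/
theorem exists_branch_sep (L : Type) [Field L] [Algebra (LaurentSeries k) L]
    [FiniteDimensional (LaurentSeries k) L] [Algebra.IsSeparable (LaurentSeries k) L] :
    ∃ φ : L →+* LaurentSeries k,
      (∀ a : k, φ (algebraMap (LaurentSeries k) L (HahnSeries.C a)) = HahnSeries.C a) ∧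
      ∀ f : PowerSeries k, ∃ g : PowerSeries k,
        φ (algebraMap (LaurentSeries k) L f) = g ∧ constantCoeff g = constantCoeff f := by
  let _ : Algebra (PowerSeries k) L :=
    ((algebraMap (LaurentSeries k) L).comp (algebraMap (PowerSeries k) (LaurentSeries k))).toAlgebra
  have _ : IsScalarTower (PowerSeries k) (LaurentSeries k) L := IsScalarTower.of_algebraMap_eq' rfl
  have _ := integralClosure.isDedekindDomain (PowerSeries k) (LaurentSeries k) L
  have _ : IsFractionRing (integralClosure (PowerSeries k) L) L :=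
    integralClosure.isFractionRing_of_finite_extension (LaurentSeries k) L
  set B := integralClosure (PowerSeries k) L with hB
  have hinj : Function.Injective (algebraMap (PowerSeries k) L) :=
    (algebraMap (LaurentSeries k) L).injective.comp (IsFractionRing.injective _ _)
  have hinjB : Function.Injective (algebraMap (PowerSeries k) B) := by
    intro a b hab
    exact hinj (congrArg Subtype.val hab)
  have _ : (Ideal.span {(X : PowerSeries k)}).IsMaximal := by
    rw [← PowerSeries.maximalIdeal_eq_span_X]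
    infer_instance
  obtain ⟨M, hMmax, hM⟩ := Ideal.exists_ideal_over_maximal_of_isIntegral (S := B)
    (Ideal.span {(X : PowerSeries k)})
    (by rw [(RingHom.injective_iff_ker_eq_bot _).mp hinjB]; exact bot_le)
  have hXM : (X : PowerSeries k) ∈ Ideal.comap (algebraMap (PowerSeries k) B) M := by
    rw [hM]
    exact Ideal.mem_span_singleton_self _
  have hM0 : M ≠ ⊥ := by
    intro h0
    rw [h0, Ideal.mem_comap, Ideal.mem_bot] at hXM
    exact X_ne_zero (hinjB (hXM.trans (map_zero _).symm))
  obtain ⟨E, hE1, hE2, hE3⟩ := expand_localization M hM0 hXM (Localization.AtPrime M)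
  have hinjL : Function.Injective ((algebraMap (PowerSeries k) (LaurentSeries k)).comp E) :=
    (IsFractionRing.injective (PowerSeries k) (LaurentSeries k)).comp hE1
  have key : ∀ f : PowerSeries k,
      IsFractionRing.lift hinjL (algebraMap (LaurentSeries k) L f) =
        ((E (algebraMap (PowerSeries k) B f) : PowerSeries k) : LaurentSeries k) := by
    intro f
    have h1 : algebraMap (LaurentSeries k) L f = algebraMap B L (algebraMap (PowerSeries k) B f) := rfl
    rw [h1, IsFractionRing.lift_algebraMap]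
    rfl
  refine ⟨IsFractionRing.lift hinjL, fun a => ?_, fun f => ⟨_, key f, ?_⟩⟩
  · have h1 := key (C a)
    rw [hE2, PowerSeries.coe_C] at h1
    exact h1
  · have h1 := hE3 (algebraMap (PowerSeries k) B f)
    rw [← map_sub] at h1
    have h2 : f - C (constantCoeff (E (algebraMap (PowerSeries k) B f))) ∈
        Ideal.span {(X : PowerSeries k)} := by
      rw [← hM]
      exact h1
    rw [Ideal.mem_span_singleton, X_dvd_iff, map_sub, constantCoeff_C, sub_eq_zero] at h2
    exact h2.symm

end Branch

end Pool.Agent.VF
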