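import Mathlib

/-!
Cohomology by hand: a system of linear equations over `ℂ[X]` which can be solved locally at every
point of the projective line, and whose homogeneous solutions are generically spanned by global
solutions of degree at most `d`, has a solution of degree at most `d`.
-/

open Polynomial

namespace Pool.Agent.Lib_MP_1858fb_v

variable {K : Type*} [Field K]

/-- The ideal of the denominators of a linear system. -/
def denIdeal {ι : Type*} {m : Type*} [Fintype m] (a : ι → m → K[X]) (o : ι → K[X]) : Ideal K[X] where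
  carrier := {s | ∃ δ : m → K[X], ∀ i, ∑ j, a i j * δ j = s * o i}
  zero_mem' := ⟨0, fun i => by simp⟩
  add_mem' := by
    rintro s t ⟨δ, hδ⟩ ⟨ε, hε⟩
    refine ⟨δ + ε, fun i => ?_⟩
    simp only [Pi.add_apply, mul_add, Finset.sum_add_distrib, hδ i, hε i, add_mul]
  smul_mem' := by
    rintro c s ⟨δ, hδ⟩
    refine ⟨fun j => c * δ j, fun i => ?_⟩
    have : ∑ j, a i j * (c * δ j) = c * ∑ j, a i j * δ j := by
      rw [Finset.mul_sum]
      exact Finset.sum_congr rfl fun j _ => by ring
    rw [this, hδ i]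
    simp only [smul_eq_mul]
    ring

/-- Local solutions at all points of the affine line give a global polynomial solution. -/
theorem exists_solution_of_local [IsAlgClosed K] {ι : Type*} {m : Type*} [Fintype m]
    (a : ι → m → K[X]) (o : ι → K[X])
    (hloc : ∀ x : K, ∃ s : K[X], s.eval x ≠ 0 ∧ ∃ δ : m → K[X], ∀ i, ∑ j, a i j * δ j = s * o i) :
    ∃ δ : m → K[X], ∀ i, ∑ j, a i j * δ j = o i := by
  have htop : denIdeal a o = ⊤ := by
    by_contra hne
    obtain ⟨g, hg⟩ : ∃ g, denIdeal a o = Ideal.span {g} :=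
      (IsPrincipalIdealRing.principal (denIdeal a o)).principal
    have hgu : ¬ IsUnit g := fun hu => hne (by rw [hg]; exact Ideal.span_singleton_eq_top.2 hu)
    obtain ⟨x, hx⟩ : ∃ x, g.IsRoot x := by
      rcases eq_or_ne g 0 with h0 | h0
      · exact ⟨0, by simp [h0]⟩
      · exact IsAlgClosed.exists_root g (fun hd => hgu (by
          exact Polynomial.isUnit_iff_degree_eq_zero.2 hd))
    obtain ⟨s, hs, δ, hδ⟩ := hloc x
    have hmem : s ∈ denIdeal a o := ⟨δ, hδ⟩
    rw [hg, Ideal.mem_span_singleton] at hmem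
    obtain ⟨q, rfl⟩ := hmem
    apply hs
    rw [eval_mul, hx.eq_zero, zero_mul]
  have h1 : (1 : K[X]) ∈ denIdeal a o := htop ▸ Submodule.mem_top
  obtain ⟨δ, hδ⟩ := h1
  exact ⟨δ, fun i => by rw [hδ i, one_mul]⟩

/-- Reduction of the degree at infinity. -/
theorem exists_solution_degree {ι : Type*} {m : Type*} [Fintype m] {r : Type*} [Fintype r] (d : ℕ)
    (a : ι → m → K[X]) (o : ι → K[X])
    (hsol : ∃ δ : m → K[X], ∀ i, ∑ j, a i j * δ j = o i)
    (hinf : ∃ (s : K[X]) (δ : m → K[X]), s ≠ 0 ∧ (∀ j, (δ j).natDegree ≤ s.natDegree + d) ∧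
      ∀ i, ∑ j, a i j * δ j = s * o i)
    (h : r → m → K[X]) (hd : ∀ k j, (h k j).natDegree ≤ d)
    (h0 : ∀ k i, ∑ j, a i j * h k j = 0)
    (hker : ∀ κ : m → K[X], (∀ i, ∑ j, a i j * κ j = 0) →
      ∃ t : K[X], t ≠ 0 ∧ ∃ c : r → K[X], ∀ j, t * κ j = ∑ k, c k * h k j) :
    ∃ δ : m → K[X], (∀ j, (δ j).natDegree ≤ d) ∧ ∀ i, ∑ j, a i j * δ j = o i := by
  obtain ⟨δ, hδ⟩ := hsol
  obtain ⟨s, δ', hs, hδd, hδ'⟩ := hinf
  obtain ⟨t, ht, c, hc⟩ := hker (fun j => s * δ j - δ' j) (fun i => by
    have h1 : ∑ j, a i j * (s * δ j - δ' j) = s * ∑ j, a i j * δ j - ∑ j, a i j * δ' j := by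
      rw [Finset.mul_sum, ← Finset.sum_sub_distrib]
      exact Finset.sum_congr rfl fun j _ => by ring
    rw [h1, hδ i, hδ' i, sub_self])
  set u : K[X] := t * s with hu
  have hu0 : u ≠ 0 := mul_ne_zero ht hs
  refine ⟨fun j => δ j - ∑ k, (c k / u) * h k j, fun j => ?_, fun i => ?_⟩
  · show (δ j - ∑ k, (c k / u) * h k j).natDegree ≤ d
    have hkey : u * (δ j - ∑ k, (c k / u) * h k j) = t * δ' j + ∑ k, (c k % u) * h k j := by
      have h1 : ∑ k, (c k % u) * h k j = ∑ k, c k * h k j - u * ∑ k, (c k / u) * h k j := by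
        rw [Finset.mul_sum, ← Finset.sum_sub_distrib]
        refine Finset.sum_congr rfl fun k _ => ?_
        have h2 : c k % u = c k - u * (c k / u) := by
          rw [eq_sub_iff_add_eq, add_comm]
          exact EuclideanDomain.div_add_mod (c k) u
        rw [h2]
        ring
      rw [h1, ← hc j]
      simp only [hu]
      ring
    have hud : u.natDegree = t.natDegree + s.natDegree := natDegree_mul ht hs
    have hle : (t * δ' j + ∑ k, (c k % u) * h k j).natDegree ≤ u.natDegree + d := by
      refine (natDegree_add_le _ _).trans (max_le ?_ ?_)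
      · refine natDegree_mul_le.trans ?_
        rw [hud]
        have := hδd j
        omega
      · refine natDegree_sum_le_of_forall_le _ _ fun k _ => ?_
        refine natDegree_mul_le.trans ?_
        have h1 : (c k % u).natDegree ≤ u.natDegree := by
          have h2 : (c k % u).degree < u.degree := EuclideanDomain.mod_lt _ hu0
          exact natDegree_le_natDegree h2.le
        have := hd k j
        omega
    rw [← hkey] at hle
    rcases eq_or_ne (δ j - ∑ k, (c k / u) * h k j) 0 with h3 | h3
    · rw [h3]; simp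
    · rw [natDegree_mul hu0 h3] at hle
      omega
  · have h1 : ∑ j, a i j * (δ j - ∑ k, (c k / u) * h k j) =
        ∑ j, a i j * δ j - ∑ k, (c k / u) * ∑ j, a i j * h k j := by
      simp only [mul_sub, Finset.sum_sub_distrib, Finset.mul_sum]
      rw [Finset.sum_comm]
      congr 1
      exact Finset.sum_congr rfl fun k _ => Finset.sum_congr rfl fun j _ => by ring
    rw [h1, hδ i]
    simp [h0]

/-- A Cramer solution: if `c` of the equations have a nonzero minor, and all other equations are
consequences of these up to a factor, then the minor is a denominator of the system. -/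
theorem cramer_solution {ι : Type*} {m : Type*} [Fintype m] [DecidableEq m] {c : Type*} [Fintype c]
    [DecidableEq c] (a : ι → m → K[X]) (o : ι → K[X]) (e : c → ι) (τ : c → m)
    (hloc : ∀ i, ∃ g : K[X], g ≠ 0 ∧ ∃ q : c → K[X],
      (∀ j, g * a i j = ∑ k, q k * a (e k) j) ∧ g * o i = ∑ k, q k * o (e k)) :
    ∀ i, ∑ j, a i j * (∑ k, if τ k = j then
        (Matrix.of fun k l => a (e k) (τ l)).cramer (fun k => o (e k)) k else 0) =
      (Matrix.of fun k l => a (e k) (τ l)).det * o i := by
  classical
  set B : Matrix c c K[X] := Matrix.of fun k l => a (e k) (τ l) with hB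
  set y : c → K[X] := B.cramer (fun k => o (e k)) with hy
  have hsum : ∀ i : ι, ∑ j, a i j * (∑ k, if τ k = j then y k else 0) = ∑ k, a i (τ k) * y k := by
    intro i
    simp only [Finset.mul_sum]
    rw [Finset.sum_comm]
    refine Finset.sum_congr rfl fun k _ => ?_
    rw [Finset.sum_eq_single (τ k)]
    · simp
    · intro b _ hb
      rw [if_neg (Ne.symm hb), mul_zero]
    · simp
  have hk : ∀ l, ∑ k, a (e l) (τ k) * y k = B.det * o (e l) := by
    intro l
    have h1 := congrFun (Matrix.mulVec_cramer B (fun k => o (e k))) l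
    simpa [Matrix.mulVec, dotProduct, hB] using h1
  intro i
  rw [hsum i]
  obtain ⟨g, hg, q, hq, hqo⟩ := hloc i
  apply mul_left_cancel₀ hg
  calc g * ∑ k, a i (τ k) * y k = ∑ k, (g * a i (τ k)) * y k := by
        rw [Finset.mul_sum]; exact Finset.sum_congr rfl fun k _ => by ring
    _ = ∑ k, (∑ l, q l * a (e l) (τ k)) * y k := by simp only [hq]
    _ = ∑ l, q l * ∑ k, a (e l) (τ k) * y k := by
        simp only [Finset.sum_mul, Finset.mul_sum]
        rw [Finset.sum_comm]
        exact Finset.sum_congr rfl fun l _ => Finset.sum_congr rfl fun k _ => by ring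
    _ = ∑ l, q l * (B.det * o (e l)) := by simp only [hk]
    _ = g * (B.det * o i) := by
        have h2 : ∑ l, q l * (B.det * o (e l)) = B.det * ∑ l, q l * o (e l) := by
          rw [Finset.mul_sum]; exact Finset.sum_congr rfl fun l _ => by ring
        rw [h2, ← hqo]; ring

end Pool.Agent.Lib_MP_1858fb_v
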