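import Mathlib

/-!
# The vanishing ideal of a product of two irreducible sets is prime
-/

namespace VF

open MvPolynomial

variable {k α β : Type*} [Field k]

/-- `S × T` as a set of functions on `α ⊕ β` -/
def prodSet (S : Set (α → k)) (T : Set (β → k)) : Set (α ⊕ β → k) :=
  {u | (fun a => u (Sum.inl a)) ∈ S ∧ (fun b => u (Sum.inr b)) ∈ T}

theorem exists_ne_of_not_mem {S : Set (α → k)} {f : MvPolynomial α k}
    (h : f ∉ vanishingIdeal k S) : ∃ w ∈ S, aeval w f ≠ 0 := by
  rw [mem_vanishingIdeal_iff] at h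
  push Not at h
  exact h

theorem aeval_elim_left (w : α → k) (z : β → k) (f : MvPolynomial (α ⊕ β) k) :
    aeval z (aeval (Sum.elim (fun a => C (w a)) X : α ⊕ β → MvPolynomial β k) f) =
      aeval (Sum.elim w z) f := by
  have : ((aeval z).comp (aeval (Sum.elim (fun a => C (w a)) X : α ⊕ β → MvPolynomial β k))) =
      (aeval (Sum.elim w z) : MvPolynomial (α ⊕ β) k →ₐ[k] k) := by
    apply MvPolynomial.algHom_ext
    rintro (a | b) <;> simp
  exact DFunLike.congr_fun this f

theorem aeval_elim_right (w : α → k) (z : β → k) (f : MvPolynomial (α ⊕ β) k) :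
    aeval w (aeval (Sum.elim X (fun b => C (z b)) : α ⊕ β → MvPolynomial α k) f) =
      aeval (Sum.elim w z) f := by
  have : ((aeval w).comp (aeval (Sum.elim X (fun b => C (z b)) : α ⊕ β → MvPolynomial α k))) =
      (aeval (Sum.elim w z) : MvPolynomial (α ⊕ β) k →ₐ[k] k) := by
    apply MvPolynomial.algHom_ext
    rintro (a | b) <;> simp
  exact DFunLike.congr_fun this f

theorem prime_prod {S : Set (α → k)} {T : Set (β → k)}
    (hS : (vanishingIdeal k S : Ideal (MvPolynomial α k)).IsPrime)
    (hT : (vanishingIdeal k T : Ideal (MvPolynomial β k)).IsPrime) :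
    (vanishingIdeal k (prodSet S T) : Ideal (MvPolynomial (α ⊕ β) k)).IsPrime := by
  have hmem : ∀ w ∈ S, ∀ z ∈ T, Sum.elim w z ∈ prodSet S T := fun w hw z hz => ⟨hw, hz⟩
  constructor
  · intro htop
    have h1 : (1 : MvPolynomial α k) ∉ vanishingIdeal k S := by
      intro h
      exact hS.ne_top ((Ideal.eq_top_iff_one _).2 h)
    have h2 : (1 : MvPolynomial β k) ∉ vanishingIdeal k T := by
      intro h
      exact hT.ne_top ((Ideal.eq_top_iff_one _).2 h)
    obtain ⟨w, hw, _⟩ := exists_ne_of_not_mem h1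
    obtain ⟨z, hz, _⟩ := exists_ne_of_not_mem h2
    have h3 : (1 : MvPolynomial (α ⊕ β) k) ∈ vanishingIdeal k (prodSet S T) :=
      (Ideal.eq_top_iff_one _).1 htop
    have := (mem_vanishingIdeal_iff.1 h3) _ (hmem w hw z hz)
    simp at this
  · intro f g hfg
    by_contra hcon
    push Not at hcon
    obtain ⟨hf, hg⟩ := hcon
    obtain ⟨u0, hu0, hf0⟩ := exists_ne_of_not_mem hf
    obtain ⟨u1, hu1, hg1⟩ := exists_ne_of_not_mem hg
    have e0 : u0 = Sum.elim (fun a => u0 (Sum.inl a)) (fun b => u0 (Sum.inr b)) := by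
      ext (a | b) <;> rfl
    have e1 : u1 = Sum.elim (fun a => u1 (Sum.inl a)) (fun b => u1 (Sum.inr b)) := by
      ext (a | b) <;> rfl
    rw [e0, ← aeval_elim_right] at hf0
    rw [e1, ← aeval_elim_right] at hg1
    set F := aeval (Sum.elim X (fun b => C (u0 (Sum.inr b))) : α ⊕ β → MvPolynomial α k) f with hF
    set G := aeval (Sum.elim X (fun b => C (u1 (Sum.inr b))) : α ⊕ β → MvPolynomial α k) g with hG
    have hF1 : F ∉ vanishingIdeal k S := fun h => hf0 ((mem_vanishingIdeal_iff.1 h) _ hu0.1)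
    have hG1 : G ∉ vanishingIdeal k S := fun h => hg1 ((mem_vanishingIdeal_iff.1 h) _ hu1.1)
    have hFG : F * G ∉ vanishingIdeal k S := fun h => (hS.mem_or_mem h).elim hF1 hG1
    obtain ⟨w, hw, hne⟩ := exists_ne_of_not_mem hFG
    rw [map_mul, hF, hG, aeval_elim_right, aeval_elim_right] at hne
    have hfw : aeval (Sum.elim (fun a => C (w a)) X : α ⊕ β → MvPolynomial β k) f ∉
        vanishingIdeal k T := by
      intro h
      have := (mem_vanishingIdeal_iff.1 h) _ hu0.2
      rw [aeval_elim_left] at this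
      exact (left_ne_zero_of_mul hne) this
    have hgw : aeval (Sum.elim (fun a => C (w a)) X : α ⊕ β → MvPolynomial β k) g ∉
        vanishingIdeal k T := by
      intro h
      have := (mem_vanishingIdeal_iff.1 h) _ hu1.2
      rw [aeval_elim_left] at this
      exact (right_ne_zero_of_mul hne) this
    have hprod := fun h => (hT.mem_or_mem h).elim hfw hgw
    obtain ⟨z, hz, hne2⟩ := exists_ne_of_not_mem hprod
    rw [map_mul, aeval_elim_left, aeval_elim_left, ← map_mul] at hne2
    exact hne2 ((mem_vanishingIdeal_iff.1 hfg) _ (hmem w hw z hz))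

end VF
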